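import Mathlib

/-! The two definitions used in the statement of the result. -/

namespace Pool.Agent.Lib_helper23.PG

/-- A finite set of natural numbers is admissible when for every prime `p` it misses at least one
residue class modulo `p`. -/
def Admissible (H : Finset ℕ) : Prop :=
  ∀ p : ℕ, p.Prime → ∃ r : ℕ, ∀ h ∈ H, ¬ h ≡ r [MOD p]

/-- Every admissible set with exactly `k` elements contains two elements `a < b` whose difference
`b - a` belongs to `D`. -/
def HitsAdmissible (k : ℕ) (D : Set ℕ) : Prop :=
  ∀ H : Finset ℕ, H.card = k → Admissible H → ∃ a ∈ H, ∃ b ∈ H, a < b ∧ b - a ∈ D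

/-- Whenever an admissible set is split into `m` pairwise disjoint bins with `k` elements each,
there are elements `a < b` in two different bins whose difference `b - a` belongs to `D`. -/
def HitsBins (m k : ℕ) (D : Set ℕ) : Prop :=
  ∀ H : Fin m → Finset ℕ, (∀ i, (H i).card = k) → (∀ i j, i ≠ j → Disjoint (H i) (H j)) →
    Admissible (Finset.univ.biUnion H) →
    ∃ i j, i ≠ j ∧ ∃ a ∈ H i, ∃ b ∈ H j, a < b ∧ b - a ∈ D

end Pool.Agent.Lib_helper23.PG
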