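import Pool.Agent.Lib_helper23.PG.A
import Pool.Agent.Lib_helper23.PG.Defs

/-! Four bins: greedy construction of mutually non-adjacent groups. -/

open Finset

namespace Pool.Agent.Lib_helper23.PG

open Classical in
/-- the extension property modulo `W` -/
def ExtMod (W : ℕ) (D : Set ℕ) (g : ZMod W → ℝ) : Prop :=
  ∀ (κ : Type) [Fintype κ] (f : κ → ℕ) (a : ZMod W) (N : ℕ) (ε : ℝ), 0 < ε →
    ∃ x : ℕ, N ≤ x ∧ ((x : ℕ) : ZMod W) = a ∧
      ∑ k, (if x - f k ∈ D then (1:ℝ) else 0) ≤ ∑ k, g (a - ((f k : ℕ) : ZMod W)) + ε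

theorem exists_density_mod (W : ℕ) [NeZero W] (D : Set ℕ) (ρ : ℝ)
    (hbad : ∀ L : ℕ, ∃ n ≥ L, ∃ x, (wcount D x n : ℝ) ≤ ρ * n) :
    ∃ g : ZMod W → ℝ, (∀ c, 0 ≤ g c) ∧ (∀ c, g c ≤ 1) ∧ ∑ c, g c ≤ ρ * W ∧ ExtMod W D g := by
  obtain ⟨g, h0, h1, h2, h3⟩ := exists_density (fun _ : Unit => W)
    (fun i j hij => absurd (Subsingleton.elim i j) hij) D ρ hbad
  refine ⟨fun c => g (fun _ => c), fun c => h0 _, fun c => h1 _, ?_, ?_⟩
  · have e : ∑ c : ZMod W, g (fun _ => c) = ∑ c : Unit → ZMod W, g c := by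
      rw [← Equiv.sum_comp (Equiv.funUnique Unit (ZMod W)).symm g]
      rfl
    rw [e]
    simpa using h2
  · intro κ _ f a N ε hε
    obtain ⟨x, hx1, hx2, hx3⟩ := h3 κ f (fun _ => a) N ε hε
    exact ⟨x, hx1, congrFun hx2 (), hx3⟩

/-- `r` mutually non-adjacent groups of every size exist in the classes `a` -/
def Groups (W : ℕ) (D : Set ℕ) (r : ℕ) (a : Fin r → ZMod W) : Prop :=
  ∀ K : ℕ, ∃ G : Fin r → Finset ℕ, (∀ i, (G i).card = K) ∧
    (∀ i, ∀ x ∈ G i, ((x : ℕ) : ZMod W) = a i) ∧ (∀ i j, i ≠ j → Disjoint (G i) (G j)) ∧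
    (∀ i j, i ≠ j → ∀ x ∈ G i, ∀ y ∈ G j, x < y → y - x ∉ D)

lemma groups_zero (W : ℕ) (D : Set ℕ) (a : Fin 0 → ZMod W) : Groups W D 0 a := fun _ =>
  ⟨fun i => i.elim0, fun i => i.elim0, fun i => i.elim0, fun i => i.elim0, fun i => i.elim0⟩

lemma groups_succ {W : ℕ} {D : Set ℕ} {g : ZMod W → ℝ} (hg : ExtMod W D g) {r : ℕ}
    {a : Fin r → ZMod W} (ha : Groups W D r a) (c : ZMod W) (hc : ∑ i, g (c - a i) < 1) :
    Groups W D (r + 1) (Fin.snoc (α := fun _ => ZMod W) a c) := by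
  classical
  intro K
  rcases Nat.eq_zero_or_pos K with hK0 | hKpos
  · subst hK0
    refine ⟨fun _ => ∅, fun _ => rfl, ?_, ?_, ?_⟩ <;> simp
  set η : ℝ := 1 - ∑ i, g (c - a i) with hη
  have hηpos : 0 < η := by linarith
  obtain ⟨M, hM⟩ := exists_nat_gt (2 * K / η)
  have hM' : 2 * (K:ℝ) < M * η := by rwa [div_lt_iff₀ hηpos] at hM
  have hMpos : (0:ℝ) < M := by
    have : 0 ≤ 2 * (K:ℝ) / η := by positivity
    linarith
  obtain ⟨G, hG1, hG2, hG3, hG4⟩ := ha M
  -- good new points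
  set Good : Set ℕ := {b | (∀ i, ∀ x ∈ G i, x < b) ∧ ((b : ℕ) : ZMod W) = c ∧
    ∀ i, K ≤ ((G i).filter (fun x => b - x ∉ D)).card} with hGood
  have hinf : Good.Infinite := by
    rw [Set.infinite_iff_exists_gt]
    intro N
    set N' : ℕ := N + ∑ i, ∑ x ∈ G i, x + 1 with hN'
    obtain ⟨b, hb1, hb2, hb3⟩ := hg (Σ i : Fin r, (G i : Finset ℕ))
      (fun q => (q.2 : ℕ)) c N' (M * η / 2) (by positivity)
    refine ⟨b, ⟨?_, hb2, ?_⟩, by omega⟩
    · intro i x hx
      have h1 : x ≤ ∑ x ∈ G i, x := Finset.single_le_sum (f := fun x => x)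
        (fun _ _ => Nat.zero_le _) hx
      have h2 : ∑ x ∈ G i, x ≤ ∑ i, ∑ x ∈ G i, x :=
        Finset.single_le_sum (f := fun i => ∑ x ∈ G i, x) (fun _ _ => Nat.zero_le _)
          (Finset.mem_univ i)
      omega
    · intro i
      have e1 : ∑ q : (Σ i : Fin r, (G i : Finset ℕ)), (if b - (q.2 : ℕ) ∈ D then (1:ℝ) else 0) =
          ∑ i, (((G i).filter (fun x => b - x ∈ D)).card : ℝ) := by
        rw [Fintype.sum_sigma]
        refine Finset.sum_congr rfl fun i _ => ?_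
        rw [← Finset.sum_boole, ← Finset.sum_coe_sort (G i)]
      have e2 : ∑ q : (Σ i : Fin r, (G i : Finset ℕ)), g (c - (((q.2 : ℕ) : ℕ) : ZMod W)) =
          M * ∑ i, g (c - a i) := by
        rw [Fintype.sum_sigma, Finset.mul_sum]
        refine Finset.sum_congr rfl fun i _ => ?_
        have : ∀ x : (G i : Finset ℕ), g (c - (((x : ℕ) : ℕ) : ZMod W)) = g (c - a i) := by
          intro x
          rw [hG2 i x x.2]
        rw [Finset.sum_congr rfl fun x _ => this x, Finset.sum_const, Finset.card_univ,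
          Fintype.card_coe, hG1, nsmul_eq_mul]
      rw [e1, e2] at hb3
      have h1 : (((G i).filter (fun x => b - x ∈ D)).card : ℝ) ≤
          ∑ i, (((G i).filter (fun x => b - x ∈ D)).card : ℝ) :=
        Finset.single_le_sum (f := fun i => (((G i).filter (fun x => b - x ∈ D)).card : ℝ))
          (fun _ _ => by positivity) (Finset.mem_univ i)
      have h2 : ((G i).filter (fun x => b - x ∈ D)).card +
          ((G i).filter (fun x => b - x ∉ D)).card = M := by
        rw [← hG1 i]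
        exact Finset.card_filter_add_card_filter_not _
      have h3 : (((G i).filter (fun x => b - x ∈ D)).card : ℝ) +
          ((G i).filter (fun x => b - x ∉ D)).card = M := by exact_mod_cast h2
      have h4 : (K : ℝ) ≤ ((G i).filter (fun x => b - x ∉ D)).card := by
        have h5 : M * ∑ i, g (c - a i) = M - M * η := by rw [hη]; ring
        linarith
      exact_mod_cast h4
  -- pigeonhole
  have hsub : ∀ b ∈ Good, ∀ i, ∃ T ⊆ (G i).filter (fun x => b - x ∉ D), T.card = K :=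
    fun b hb i => Finset.exists_subset_card_eq (hb.2.2 i)
  choose! T hT1 hT2 using hsub
  set Y : Finset (Fin r → Finset ℕ) := Fintype.piFinset (fun i => (G i).powerset) with hY
  obtain ⟨B, hB1, hB2⟩ := hinf.exists_subset_card_eq (Y.card * K)
  have hmaps : ∀ b ∈ B, T b ∈ Y := by
    intro b hb
    rw [hY, Fintype.mem_piFinset]
    intro i
    rw [Finset.mem_powerset]
    exact (hT1 b (hB1 hb) i).trans (Finset.filter_subset _ _)
  have hYne : Y.Nonempty := by
    refine ⟨fun _ => ∅, ?_⟩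
    rw [hY, Fintype.mem_piFinset]
    intro i
    simp
  obtain ⟨y, hyY, hy⟩ := Finset.exists_le_card_fiber_of_mul_le_card_of_maps_to hmaps hYne
    (le_of_eq hB2.symm)
  obtain ⟨B', hB'1, hB'2⟩ := Finset.exists_subset_card_eq hy
  have hB'good : ∀ b ∈ B', b ∈ Good ∧ T b = y := by
    intro b hb
    have := Finset.mem_filter.1 (hB'1 hb)
    exact ⟨hB1 this.1, this.2⟩
  obtain ⟨b0, hb0⟩ : B'.Nonempty := by
    rw [← Finset.card_pos, hB'2]; exact hKpos
  have hyG : ∀ i, y i ⊆ G i := fun i => by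
    have h1 := (hB'good b0 hb0)
    rw [← h1.2]
    exact (hT1 b0 h1.1 i).trans (Finset.filter_subset _ _)
  have hyc : ∀ i, (y i).card = K := fun i => by
    have h1 := (hB'good b0 hb0)
    rw [← h1.2]
    exact hT2 b0 h1.1 i
  have hyB : ∀ i, ∀ x ∈ y i, ∀ b ∈ B', x < b ∧ b - x ∉ D := by
    intro i x hx b hb
    have h1 := hB'good b hb
    rw [← h1.2] at hx
    have h2 := Finset.mem_filter.1 (hT1 b h1.1 i hx)
    exact ⟨h1.1.1 i x h2.1, h2.2⟩
  refine ⟨Fin.snoc (α := fun _ => Finset ℕ) y B', ?_, ?_, ?_, ?_⟩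
  · intro i
    refine Fin.lastCases ?_ (fun i => ?_) i
    · rw [Fin.snoc_last]; exact hB'2
    · rw [Fin.snoc_castSucc]; exact hyc i
  · intro i
    refine Fin.lastCases ?_ (fun i => ?_) i
    · rw [Fin.snoc_last, Fin.snoc_last]
      intro x hx
      exact (hB'good x hx).1.2.1
    · rw [Fin.snoc_castSucc, Fin.snoc_castSucc]
      intro x hx
      exact hG2 i x (hyG i hx)
  · intro i j
    refine Fin.lastCases ?_ (fun i => ?_) i <;> refine Fin.lastCases ?_ (fun j => ?_) j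
    · intro h; exact absurd rfl h
    · intro _
      rw [Fin.snoc_last, Fin.snoc_castSucc]
      rw [Finset.disjoint_left]
      intro b hb hb'
      exact absurd (hyB j b hb' b hb).1 (lt_irrefl _)
    · intro _
      rw [Fin.snoc_last, Fin.snoc_castSucc]
      rw [Finset.disjoint_left]
      intro b hb hb'
      exact absurd (hyB i b hb b hb').1 (lt_irrefl _)
    · intro hij
      rw [Fin.snoc_castSucc, Fin.snoc_castSucc]
      have hij' : i ≠ j := fun h => hij (by rw [h])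
      exact (hG3 i j hij').mono (hyG i) (hyG j)
  · intro i j
    refine Fin.lastCases ?_ (fun i => ?_) i <;> refine Fin.lastCases ?_ (fun j => ?_) j
    · intro h; exact absurd rfl h
    · intro _
      rw [Fin.snoc_last, Fin.snoc_castSucc]
      intro x hx y' hy' hlt
      have := (hyB j y' hy' x hx).1
      omega
    · intro _
      rw [Fin.snoc_last, Fin.snoc_castSucc]
      intro x hx y' hy' _
      exact (hyB i x hx y' hy').2
    · intro hij
      rw [Fin.snoc_castSucc, Fin.snoc_castSucc]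
      have hij' : i ≠ j := fun h => hij (by rw [h])
      intro x hx y' hy' hlt
      exact hG4 i j hij' x (hyG i hx) y' (hyG j hy') hlt

section Classes

variable (W Q : ℕ) [NeZero W] [NeZero Q] (hQ : Q ∣ W)

/-- reduction modulo `Q` -/
def red : ZMod W →+* ZMod Q := ZMod.castHom hQ (ZMod Q)

/-- sum of `g` over a class modulo `Q` -/
noncomputable def cls (g : ZMod W → ℝ) (r : ZMod Q) : ℝ :=
  ∑ c ∈ Finset.univ.filter (fun c => red W Q hQ c = r), g c

lemma card_fiber (r : ZMod Q) :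
    Q * (Finset.univ.filter (fun c => red W Q hQ c = r)).card = W := by
  have hsurj : Function.Surjective (red W Q hQ) := ZMod.castHom_surjective hQ
  have hle : ∀ r r' : ZMod Q, (Finset.univ.filter (fun c => red W Q hQ c = r)).card ≤
      (Finset.univ.filter (fun c => red W Q hQ c = r')).card := by
    intro r r'
    obtain ⟨d, hd⟩ := hsurj (r' - r)
    refine Finset.card_le_card_of_injOn (fun c => c + d) ?_ ?_
    · intro c hc
      have h := (Finset.mem_filter.1 (Finset.mem_coe.1 hc)).2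
      refine Finset.mem_coe.2 (Finset.mem_filter.2 ⟨Finset.mem_univ _, ?_⟩)
      rw [map_add, h, hd]
      ring
    · intro c _ c' _ h
      exact add_right_cancel h
  have htot : ∑ r' : ZMod Q, (Finset.univ.filter (fun c => red W Q hQ c = r')).card = W := by
    rw [← Finset.card_eq_sum_card_fiberwise (f := fun c => red W Q hQ c) (t := Finset.univ)
      (fun _ _ => by simp), Finset.card_univ, ZMod.card]
  have heq : ∀ r' : ZMod Q, (Finset.univ.filter (fun c => red W Q hQ c = r')).card =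
      (Finset.univ.filter (fun c => red W Q hQ c = r)).card := fun r' =>
    le_antisymm (hle _ _) (hle _ _)
  rw [Finset.sum_congr rfl fun r' _ => heq r', Finset.sum_const, Finset.card_univ, ZMod.card,
    smul_eq_mul] at htot
  exact htot

omit [NeZero Q] in
lemma sum_shift (g : ZMod W → ℝ) (β : ZMod Q) (a : ZMod W) :
    ∑ c ∈ Finset.univ.filter (fun c => red W Q hQ c = β), g (c - a) =
      cls W Q hQ g (β - red W Q hQ a) := by
  unfold cls
  refine Finset.sum_nbij' (fun c => c - a) (fun c => c + a) ?_ ?_ ?_ ?_ ?_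
  · intro c hc
    rw [Finset.mem_filter] at hc ⊢
    exact ⟨Finset.mem_univ _, by rw [map_sub, hc.2]⟩
  · intro c hc
    rw [Finset.mem_filter] at hc ⊢
    exact ⟨Finset.mem_univ _, by rw [map_add, hc.2]; ring⟩
  · intro c _; ring
  · intro c _; ring
  · intro c _; rfl

/-- groups with prescribed classes modulo `Q` -/
def GroupsMod (D : Set ℕ) (r : ℕ) (p : Fin r → ZMod Q) : Prop :=
  ∃ a : Fin r → ZMod W, (∀ i, red W Q hQ (a i) = p i) ∧ Groups W D r a

lemma groupsMod_succ {D : Set ℕ} {g : ZMod W → ℝ} (hg : ExtMod W D g) {r : ℕ}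
    {p : Fin r → ZMod Q} (hp : GroupsMod W Q hQ D r p) (β : ZMod Q)
    (hc : Q * ∑ i, cls W Q hQ g (β - p i) < W) :
    GroupsMod W Q hQ D (r + 1) (Fin.snoc (α := fun _ => ZMod Q) p β) := by
  obtain ⟨a, ha1, ha2⟩ := hp
  have hfib := card_fiber W Q hQ β
  have hW : 0 < W := Nat.pos_of_ne_zero (NeZero.ne W)
  have hQ0 : (0:ℝ) < Q := by
    have := Nat.pos_of_ne_zero (NeZero.ne Q)
    exact_mod_cast this
  set F := Finset.univ.filter (fun c => red W Q hQ c = β) with hF
  have hsum : ∑ c ∈ F, ∑ i, g (c - a i) = ∑ i, cls W Q hQ g (β - p i) := by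
    rw [Finset.sum_comm]
    refine Finset.sum_congr rfl fun i _ => ?_
    rw [hF, sum_shift, ha1]
  have hlt : ∑ c ∈ F, ∑ i, g (c - a i) < ∑ c ∈ F, (1:ℝ) := by
    rw [hsum, Finset.sum_const, nsmul_eq_mul, mul_one]
    have : (Q:ℝ) * F.card = W := by exact_mod_cast hfib
    rw [← this] at hc
    exact lt_of_mul_lt_mul_left hc hQ0.le
  obtain ⟨c, hcF, hc1⟩ := Finset.exists_lt_of_sum_lt hlt
  rw [hF, Finset.mem_filter] at hcF
  refine ⟨Fin.snoc (α := fun _ => ZMod W) a c, ?_, groups_succ hg ha2 c hc1⟩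
  intro i
  refine Fin.lastCases ?_ (fun i => ?_) i
  · rw [Fin.snoc_last, Fin.snoc_last]; exact hcF.2
  · rw [Fin.snoc_castSucc, Fin.snoc_castSucc]; exact ha1 i

omit [NeZero Q] in
lemma cls_nonneg {g : ZMod W → ℝ} (h0 : ∀ c, 0 ≤ g c) (r : ZMod Q) : 0 ≤ cls W Q hQ g r :=
  Finset.sum_nonneg fun c _ => h0 c

lemma sum_cls (g : ZMod W → ℝ) : ∑ r, cls W Q hQ g r = ∑ c, g c := by
  unfold cls
  rw [Finset.sum_fiberwise]

/-- four groups in the classes `α, α, β, β` -/
lemma four_groups {D : Set ℕ} {g : ZMod W → ℝ} (hg : ExtMod W D g) (h0 : ∀ c, 0 ≤ g c)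
    (α β : ZMod Q) (hc : Q * (cls W Q hQ g 0 + 2 * cls W Q hQ g (β - α)) < W) :
    ∃ p : Fin 4 → ZMod Q, (∀ i, p i = α ∨ p i = β) ∧ GroupsMod W Q hQ D 4 p := by
  have n0 := cls_nonneg W Q hQ h0 0
  have n1 := cls_nonneg W Q hQ h0 (β - α)
  have hW : (0:ℝ) < W := by
    have := Nat.pos_of_ne_zero (NeZero.ne W)
    exact_mod_cast this
  have hQ0 : (0:ℝ) < Q := by
    have := Nat.pos_of_ne_zero (NeZero.ne Q)
    exact_mod_cast this
  have m0 : 0 ≤ (Q:ℝ) * cls W Q hQ g 0 := by positivity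
  have m1 : 0 ≤ (Q:ℝ) * cls W Q hQ g (β - α) := by positivity
  have g0 : GroupsMod W Q hQ D 0 (fun i => i.elim0) :=
    ⟨fun i => i.elim0, fun i => i.elim0, groups_zero W D _⟩
  have g1 := groupsMod_succ W Q hQ hg g0 α (by simpa using hW)
  have g2 := groupsMod_succ W Q hQ hg g1 α (by
    rw [Fin.sum_univ_castSucc]
    simp only [Fin.snoc_castSucc, Fin.snoc_last, sub_self, Finset.univ_eq_empty,
      Finset.sum_empty, zero_add]
    linarith)
  have g3 := groupsMod_succ W Q hQ hg g2 β (by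
    rw [Fin.sum_univ_castSucc, Fin.sum_univ_castSucc]
    simp only [Fin.snoc_castSucc, Fin.snoc_last, Finset.univ_eq_empty,
      Finset.sum_empty, zero_add]
    linarith)
  have g4 := groupsMod_succ W Q hQ hg g3 β (by
    rw [Fin.sum_univ_castSucc, Fin.sum_univ_castSucc, Fin.sum_univ_castSucc]
    simp only [Fin.snoc_castSucc, Fin.snoc_last, sub_self, Finset.univ_eq_empty,
      Finset.sum_empty, zero_add]
    linarith)
  refine ⟨_, ?_, g4⟩
  intro i
  refine Fin.lastCases ?_ (fun i => ?_) i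
  · right; rw [Fin.snoc_last]
  rw [Fin.snoc_castSucc]
  refine Fin.lastCases ?_ (fun i => ?_) i
  · right; rw [Fin.snoc_last]
  rw [Fin.snoc_castSucc]
  refine Fin.lastCases ?_ (fun i => ?_) i
  · left; rw [Fin.snoc_last]
  rw [Fin.snoc_castSucc]
  refine Fin.lastCases ?_ (fun i => ?_) i
  · left; rw [Fin.snoc_last]
  exact i.elim0

end Classes

lemma adm_groups {k : ℕ} {W : ℕ} (hW : ∀ q : ℕ, q.Prime → 5 ≤ q → q ≤ 4 * k → q ∣ W)
    (a : Fin 4 → ZMod W) (G : Fin 4 → Finset ℕ) (hG1 : ∀ i, (G i).card = k)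
    (hG2 : ∀ i, ∀ x ∈ G i, ((x : ℕ) : ZMod W) = a i)
    (hG6 : ∀ i, ∀ x ∈ G i, x % 2 = 1 ∧ x % 3 ≠ 0) :
    Admissible (Finset.univ.biUnion G) := by
  classical
  intro q hq
  have hmem : ∀ x ∈ Finset.univ.biUnion G, ∃ i, x ∈ G i := by
    intro x hx
    obtain ⟨i, _, hi⟩ := Finset.mem_biUnion.1 hx
    exact ⟨i, hi⟩
  rcases lt_or_ge q 5 with h5 | h5
  · refine ⟨0, fun x hx h => ?_⟩
    obtain ⟨i, hi⟩ := hmem x hx
    have h1 := hG6 i x hi
    rw [Nat.modEq_zero_iff_dvd] at h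
    have hq' := hq.two_le
    interval_cases q
    · omega
    · omega
    · exact absurd hq (by norm_num)
  · by_contra hcon
    push Not at hcon
    have hsub : Finset.range q ⊆ (Finset.univ.biUnion G).image (fun x => x % q) := by
      intro r hr
      rw [Finset.mem_range] at hr
      obtain ⟨x, hx, hxr⟩ := hcon r
      refine Finset.mem_image.2 ⟨x, hx, ?_⟩
      unfold Nat.ModEq at hxr
      rw [hxr, Nat.mod_eq_of_lt hr]
    have hcard := Finset.card_le_card hsub
    rw [Finset.card_range] at hcard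
    rcases le_or_gt q (4 * k) with hle | hgt
    · have hd := hW q hq h5 hle
      have hsub2 : (Finset.univ.biUnion G).image (fun x => x % q) ⊆
          (Finset.univ : Finset (Fin 4)).image (fun i => (ZMod.castHom hd (ZMod q) (a i)).val) := by
        intro y hy
        obtain ⟨x, hx, rfl⟩ := Finset.mem_image.1 hy
        obtain ⟨i, hi⟩ := hmem x hx
        refine Finset.mem_image.2 ⟨i, Finset.mem_univ _, ?_⟩
        rw [← hG2 i x hi, map_natCast, ZMod.val_natCast]
      have h2 := (Finset.card_le_card hsub2).trans Finset.card_image_le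
      rw [Finset.card_univ, Fintype.card_fin] at h2
      omega
    · have h2 : (Finset.univ.biUnion G).card ≤ 4 * k := by
        refine (Finset.card_biUnion_le).trans ?_
        rw [Finset.sum_congr rfl fun i _ => hG1 i]
        simp
      have h3 := Finset.card_image_le (s := Finset.univ.biUnion G) (f := fun x => x % q)
      omega

/-- two classes that are odd and prime to `3` -/
lemma exists_class (q : ℕ) (δ : ℕ) (hδ : δ = 1 ∨ δ = 2) :
    ∃ a : ℕ, a ≡ 1 [MOD q] ∧ a % 3 ≠ 0 ∧ (a + δ * q) % 3 ≠ 0 := by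
  have h3 : q % 3 = 0 ∨ q % 3 = 1 ∨ q % 3 = 2 := by omega
  have e0 : 1 ≡ 1 [MOD q] := rfl
  have e1 : 1 + q ≡ 1 [MOD q] := by
    show (1 + q) % q = 1 % q
    rw [Nat.add_mod_right]
  have e2 : 1 + q + q ≡ 1 [MOD q] := by
    show (1 + q + q) % q = 1 % q
    rw [Nat.add_mod_right, Nat.add_mod_right]
  rcases hδ with rfl | rfl <;> rcases h3 with h | h | h
  · exact ⟨1, e0, by omega, by omega⟩
  · exact ⟨1, e0, by omega, by omega⟩
  · refine ⟨1 + q + q, e2, by omega, by omega⟩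
  · exact ⟨1, e0, by omega, by omega⟩
  · refine ⟨1 + q, e1, by omega, by omega⟩
  · exact ⟨1, e0, by omega, by omega⟩

theorem bins_bound {D : Set ℕ} {k : ℕ} (hD : HitsBins 4 k D) (q : ℕ) (hq0 : 0 < q)
    (hq2 : 2 ∣ q) (ρ : ℝ) (hρ : ρ < 1 / (3 * q)) :
    ∃ L : ℕ, ∀ n ≥ L, ∀ x : ℕ, ρ * n < wcount (D ∩ {d | q ∣ d}) x n := by
  by_contra hcon
  push Not at hcon
  set Q : ℕ := 3 * q with hQdef
  set W : ℕ := Q * (4 * k).factorial with hWdef
  have hWpos : 0 < W := by positivity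
  have : NeZero W := ⟨hWpos.ne'⟩
  have : NeZero Q := ⟨by omega⟩
  have hQW : Q ∣ W := dvd_mul_right _ _
  obtain ⟨g, h0, _, h2, h3⟩ := exists_density_mod W (D ∩ {d | q ∣ d}) ρ hcon
  have hWr : (0:ℝ) < W := by exact_mod_cast hWpos
  have hqr : (0:ℝ) < q := by exact_mod_cast hq0
  have hsum := sum_cls W Q hQW g
  -- three classes
  have hne : ∀ i j : ℕ, i < 3 → j < 3 → i ≠ j → ((i * q : ℕ) : ZMod Q) ≠ ((j * q : ℕ) : ZMod Q) := by
    intro i j hi hj hij h
    rw [ZMod.natCast_eq_natCast_iff] at h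
    have hlt : ∀ i < 3, i * q < Q := fun i hi => by
      rw [hQdef]; exact (Nat.mul_lt_mul_right hq0).2 hi
    have h4 := Nat.ModEq.eq_of_lt_of_lt h (hlt i hi) (hlt j hj)
    exact hij (Nat.eq_of_mul_eq_mul_right hq0 h4)
  have hthree : cls W Q hQW g ((0 * q : ℕ) : ZMod Q) + cls W Q hQW g ((1 * q : ℕ) : ZMod Q) +
      cls W Q hQW g ((2 * q : ℕ) : ZMod Q) ≤ ∑ c, g c := by
    rw [← hsum]
    have h4 : ∑ r ∈ ({((0 * q : ℕ) : ZMod Q), ((1 * q : ℕ) : ZMod Q), ((2 * q : ℕ) : ZMod Q)} :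
        Finset (ZMod Q)), cls W Q hQW g r ≤ ∑ r, cls W Q hQW g r :=
      Finset.sum_le_sum_of_subset_of_nonneg (Finset.subset_univ _)
        (fun r _ _ => cls_nonneg W Q hQW h0 r)
    rw [Finset.sum_insert, Finset.sum_pair (hne 1 2 (by norm_num) (by norm_num) (by norm_num))]
      at h4
    · linarith
    · rw [Finset.mem_insert, Finset.mem_singleton, not_or]
      exact ⟨hne 0 1 (by norm_num) (by norm_num) (by norm_num),
        hne 0 2 (by norm_num) (by norm_num) (by norm_num)⟩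
  have hzero : ((0 * q : ℕ) : ZMod Q) = 0 := by simp
  rw [hzero] at hthree
  have hQr : (Q:ℝ) = 3 * q := by rw [hQdef]; push_cast; ring
  have htot : (Q:ℝ) * (cls W Q hQW g 0 + cls W Q hQW g ((1 * q : ℕ) : ZMod Q) +
      cls W Q hQW g ((2 * q : ℕ) : ZMod Q)) < W := by
    have hQpos : (0:ℝ) < Q := by rw [hQr]; positivity
    have h4 : ρ * Q < 1 := by
      rw [hQr]
      rwa [lt_div_iff₀ (by positivity)] at hρ
    calc (Q:ℝ) * _ ≤ Q * (ρ * W) := by
          refine mul_le_mul_of_nonneg_left (hthree.trans h2) hQpos.le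
      _ = (ρ * Q) * W := by ring
      _ < 1 * W := mul_lt_mul_of_pos_right h4 hWr
      _ = W := one_mul _
  have hδ : ∃ δ : ℕ, (δ = 1 ∨ δ = 2) ∧
      (Q:ℝ) * (cls W Q hQW g 0 + 2 * cls W Q hQW g ((δ * q : ℕ) : ZMod Q)) < W := by
    rcases lt_or_ge ((Q:ℝ) * (cls W Q hQW g 0 + 2 * cls W Q hQW g ((1 * q : ℕ) : ZMod Q))) W
      with h | h
    · exact ⟨1, Or.inl rfl, h⟩
    · exact ⟨2, Or.inr rfl, by nlinarith⟩
  obtain ⟨δ, hδ12, hδlt⟩ := hδ
  obtain ⟨b, hb1, hb2, hb3⟩ := exists_class q δ hδ12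
  obtain ⟨p, hp, a, ha, hG⟩ := four_groups W Q hQW h3 h0 ((b : ℕ) : ZMod Q)
    ((b + δ * q : ℕ) : ZMod Q) (by
      have : ((b + δ * q : ℕ) : ZMod Q) - ((b : ℕ) : ZMod Q) = ((δ * q : ℕ) : ZMod Q) := by
        push_cast; ring
      rw [this]; exact hδlt)
  obtain ⟨G, hG1, hG2, hG3, hG4⟩ := hG k
  have hcls : ∀ i, ∀ x ∈ G i, x ≡ b [MOD Q] ∨ x ≡ b + δ * q [MOD Q] := by
    intro i x hx
    have h4 : ((x : ℕ) : ZMod Q) = p i := by
      rw [← ha i, ← hG2 i x hx, map_natCast]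
    rcases hp i with h | h
    · left
      rw [← ZMod.natCast_eq_natCast_iff, h4, h]
    · right
      rw [← ZMod.natCast_eq_natCast_iff, h4, h]
  have hq1 : ∀ i, ∀ x ∈ G i, x ≡ 1 [MOD q] := by
    intro i x hx
    have hbq : b + δ * q ≡ b [MOD q] := by
      show (b + δ * q) % q = b % q
      rw [Nat.add_mul_mod_self_right]
    rcases hcls i x hx with h | h
    · exact (h.of_dvd (dvd_mul_left _ _)).trans hb1
    · exact ((h.of_dvd (dvd_mul_left _ _)).trans hbq).trans hb1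
  have hadm : Admissible (Finset.univ.biUnion G) := by
    refine adm_groups (k := k) (W := W) ?_ a G hG1 hG2 ?_
    · intro q hq _ hle
      exact ((hq.dvd_factorial).2 hle).trans (dvd_mul_left _ _)
    · intro i x hx
      refine ⟨?_, ?_⟩
      · have := (hq1 i x hx).of_dvd hq2
        unfold Nat.ModEq at this
        omega
      · rcases hcls i x hx with h | h
        · have := h.of_dvd (dvd_mul_right 3 q)
          unfold Nat.ModEq at this
          omega
        · have := h.of_dvd (dvd_mul_right 3 q)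
          unfold Nat.ModEq at this
          omega
  obtain ⟨i, j, hij, x, hx, y, hy, hxy, hmem⟩ := hD G hG1 hG3 hadm
  refine hG4 i j hij x hx y hy hxy ⟨hmem, ?_⟩
  have h5 : x ≡ y [MOD q] := (hq1 i x hx).trans (hq1 j y hy).symm
  exact (Nat.modEq_iff_dvd' hxy.le).1 h5

end Pool.Agent.Lib_helper23.PG
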