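import Mathlib

/-! Residue counting in windows and the limiting density vector. -/

open Finset Filter Topology

namespace Pool.Agent.Lib_helper23.PG

section Count

variable {ι : Type} [Fintype ι] (P : ι → ℕ)

/-- numbers in a window with prescribed residues -/
def win (x n : ℕ) (c : ∀ i, ZMod (P i)) : Finset ℕ :=
  by classical exact (Ioc x (x + n)).filter (fun y => ((y : ℕ) : ∀ i, ZMod (P i)) = c)

lemma mem_win {x n : ℕ} {c : ∀ i, ZMod (P i)} {y : ℕ} :
    y ∈ win P x n c ↔ (x < y ∧ y ≤ x + n) ∧ ((y : ℕ) : ∀ i, ZMod (P i)) = c := by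
  classical
  simp [win]

lemma exists_rep (hP0 : ∀ i, 0 < P i) (hP : Pairwise (Function.onFun Nat.Coprime P))
    (c : ∀ i, ZMod (P i)) :
    ∃ v : ℕ, ∀ y : ℕ, ((y : ℕ) : ∀ i, ZMod (P i)) = c ↔ y ≡ v [MOD ∏ i, P i] := by
  have hW : 0 < ∏ i, P i := Finset.prod_pos fun i _ => hP0 i
  have : NeZero (∏ i, P i) := ⟨hW.ne'⟩
  refine ⟨((ZMod.prodEquivPi P hP).symm c).val, fun y => ?_⟩
  rw [← ZMod.natCast_eq_natCast_iff, ZMod.natCast_val, ZMod.cast_id', id]
  constructor
  · intro h
    rw [← h]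
    simp
  · intro h
    have := congrArg (ZMod.prodEquivPi P hP) h
    simpa using this

lemma card_win_bounds (hP0 : ∀ i, 0 < P i) (hP : Pairwise (Function.onFun Nat.Coprime P))
    (x n : ℕ) (c : ∀ i, ZMod (P i)) :
    (n : ℝ) / (∏ i, P i : ℕ) - 1 ≤ (win P x n c).card ∧
      ((win P x n c).card : ℝ) ≤ (n : ℝ) / (∏ i, P i : ℕ) + 1 := by
  classical
  obtain ⟨v, hv⟩ := exists_rep P hP0 hP c
  have hW : 0 < ∏ i, P i := Finset.prod_pos fun i _ => hP0 i
  set W := ∏ i, P i with hWdef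
  have h1 : win P x n c = (Ioc x (x + n)).filter (fun y => y ≡ v [MOD W]) := by
    ext y
    simp [win, hv]
  have h2 := Nat.Ioc_filter_modEq_card x (x + n) hW v
  rw [← h1] at h2
  have hWq : (0 : ℚ) < W := by exact_mod_cast hW
  have e1 : ((((x + n : ℕ) : ℚ) - v) / W) = ((x : ℚ) - v) / W + n / W := by
    push_cast; field_simp; ring
  have hf1 := Int.floor_le ((((x + n : ℕ) : ℚ) - v) / W)
  have hf2 := Int.lt_floor_add_one ((((x + n : ℕ) : ℚ) - v) / W)
  have hf3 := Int.floor_le (((x : ℚ) - v) / W)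
  have hf4 := Int.lt_floor_add_one (((x : ℚ) - v) / W)
  have hn0 : (0 : ℚ) ≤ (n : ℚ) / W := by positivity
  have h3 : ((win P x n c).card : ℤ) = max (⌊(((x + n : ℕ) : ℚ) - v) / W⌋ - ⌊((x : ℚ) - v) / W⌋) 0 := by
    exact_mod_cast h2
  have key : (n : ℚ) / W - 1 ≤ (win P x n c).card ∧ ((win P x n c).card : ℚ) ≤ (n : ℚ) / W + 1 := by
    have h3' : ((win P x n c).card : ℚ) = max ((⌊(((x + n : ℕ) : ℚ) - v) / W⌋ : ℚ) - ⌊((x : ℚ) - v) / W⌋) 0 := by
      have := congrArg (Int.cast : ℤ → ℚ) h3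
      push_cast at this
      exact_mod_cast this
    rw [h3']
    constructor
    · refine le_trans ?_ (le_max_left _ _)
      linarith
    · refine max_le ?_ (by linarith)
      linarith
  constructor
  · have := key.1
    have h5 : (((n : ℚ) / W - 1 : ℚ) : ℝ) ≤ (((win P x n c).card : ℚ) : ℝ) := by exact_mod_cast this
    push_cast at h5
    simpa using h5
  · have := key.2
    have h5 : ((((win P x n c).card : ℚ)) : ℝ) ≤ (((n : ℚ) / W + 1 : ℚ) : ℝ) := by exact_mod_cast this
    push_cast at h5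
    simpa using h5


open Classical in
/-- number of elements of `D` in a window with prescribed residues -/
noncomputable def dcount (D : Set ℕ) (x n : ℕ) (c : ∀ i, ZMod (P i)) : ℕ :=
  ((win P x n c).filter (fun y => y ∈ D)).card

open Classical in
/-- number of elements of `D` in a window -/
noncomputable def wcount (D : Set ℕ) (x n : ℕ) : ℕ :=
  ((Ioc x (x + n)).filter (fun y => y ∈ D)).card

lemma sum_dcount (D : Set ℕ) (x n : ℕ) [Fintype (∀ i, ZMod (P i))] :
    ∑ c, dcount P D x n c = wcount D x n := by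
  classical
  unfold dcount wcount
  rw [Finset.card_eq_sum_card_fiberwise (f := fun y : ℕ => ((y : ℕ) : ∀ i, ZMod (P i)))
    (t := Finset.univ) (fun _ _ => by simp)]
  refine Finset.sum_congr rfl fun c _ => ?_
  congr 1
  ext y
  simp only [Finset.mem_filter, mem_win, Finset.mem_Ioc]
  tauto

open Classical in
/-- extension property of the limiting density vector -/
def Ext (D : Set ℕ) (g : (∀ i, ZMod (P i)) → ℝ) : Prop :=
  ∀ (κ : Type) [Fintype κ] (f : κ → ℕ) (a : ∀ i, ZMod (P i)) (N : ℕ) (ε : ℝ), 0 < ε →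
    ∃ x : ℕ, N ≤ x ∧ ((x : ℕ) : ∀ i, ZMod (P i)) = a ∧
      ∑ k, (if x - f k ∈ D then (1:ℝ) else 0) ≤
        ∑ k, g (a - ((f k : ℕ) : ∀ i, ZMod (P i))) + ε

open Classical in
lemma hits_le (D : Set ℕ) (x n f B : ℕ) (a : ∀ i, ZMod (P i)) (hB : f < B) :
    (((win P x n a).filter (fun y => B ≤ y)).filter (fun y => y - f ∈ D)).card ≤
      f + dcount P D x n (a - ((f : ℕ) : ∀ i, ZMod (P i))) := by
  have hsub : ((win P x n a).filter (fun y => B ≤ y)).filter (fun y => y - f ∈ D) ⊆
      Ioc x (x + f) ∪ ((win P x n (a - ((f : ℕ) : ∀ i, ZMod (P i)))).filter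
        (fun y => y ∈ D)).image (fun z => z + f) := by
    intro y hy
    simp only [Finset.mem_filter, mem_win] at hy
    obtain ⟨⟨⟨⟨h1, h2⟩, h3⟩, h4⟩, h5⟩ := hy
    simp only [Finset.mem_union, Finset.mem_Ioc, Finset.mem_image, Finset.mem_filter, mem_win]
    by_cases hc : y ≤ x + f
    · exact Or.inl ⟨h1, hc⟩
    · refine Or.inr ⟨y - f, ⟨⟨⟨by omega, by omega⟩, ?_⟩, h5⟩, by omega⟩
      rw [Nat.cast_sub (by omega), h3]
  refine (Finset.card_le_card hsub).trans ((Finset.card_union_le _ _).trans ?_)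
  have h1 : (Ioc x (x + f)).card = f := by simp
  have h2 := Finset.card_image_le (s := (win P x n (a - ((f : ℕ) : ∀ i, ZMod (P i)))).filter
        (fun y => y ∈ D)) (f := fun z => z + f)
  unfold dcount
  omega


lemma sum_hits_le (D : Set ℕ) (x n B : ℕ) (a : ∀ i, ZMod (P i)) (κ : Type) [Fintype κ]
    (f : κ → ℕ) (hB : ∀ k, f k < B) (t : ℝ)
    (ht : ∀ y ∈ (win P x n a).filter (fun y => B ≤ y),
      t ≤ ∑ k, (by classical exact if y - f k ∈ D then (1:ℝ) else 0)) :
    (((win P x n a).filter (fun y => B ≤ y)).card : ℝ) * t ≤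
      ∑ k, ((f k : ℝ) + dcount P D x n (a - ((f k : ℕ) : ∀ i, ZMod (P i)))) := by
  classical
  calc (((win P x n a).filter (fun y => B ≤ y)).card : ℝ) * t
      = ∑ y ∈ (win P x n a).filter (fun y => B ≤ y), t := by simp
    _ ≤ ∑ y ∈ (win P x n a).filter (fun y => B ≤ y), ∑ k, (if y - f k ∈ D then (1:ℝ) else 0) := by
        refine Finset.sum_le_sum fun y hy => ?_
        convert ht y hy
    _ = ∑ k, ∑ y ∈ (win P x n a).filter (fun y => B ≤ y), (if y - f k ∈ D then (1:ℝ) else 0) :=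
        Finset.sum_comm
    _ ≤ _ := by
        refine Finset.sum_le_sum fun k _ => ?_
        rw [Finset.sum_boole]
        have := hits_le P D x n (f k) B a (hB k)
        exact_mod_cast this

theorem exists_density [DecidableEq ι] [∀ i, NeZero (P i)]
    (hP : Pairwise (Function.onFun Nat.Coprime P)) (D : Set ℕ) (ρ : ℝ)
    (hbad : ∀ L : ℕ, ∃ n ≥ L, ∃ x, (wcount D x n : ℝ) ≤ ρ * n) :
    ∃ g : (∀ i, ZMod (P i)) → ℝ, (∀ c, 0 ≤ g c) ∧ (∀ c, g c ≤ 1) ∧
      ∑ c, g c ≤ ρ * (∏ i, P i : ℕ) ∧ Ext P D g := by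
  classical
  have hP0 : ∀ i, 0 < P i := fun i => Nat.pos_of_ne_zero (NeZero.ne _)
  have hWn : 0 < ∏ i, P i := Finset.prod_pos fun i _ => hP0 i
  set W : ℕ := ∏ i, P i with hW
  have hWr : (0:ℝ) < W := by exact_mod_cast hWn
  choose n hn x hx using hbad
  let nn : ℕ → ℕ := fun j => n (j + 1)
  let xx : ℕ → ℕ := fun j => x (j + 1)
  have hnn : ∀ j, j + 1 ≤ nn j := fun j => hn (j + 1)
  have hnpos : ∀ j, (0:ℝ) < nn j := fun j => by
    have := hnn j
    exact_mod_cast (by omega : 0 < nn j)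
  let v : ℕ → (∀ i, ZMod (P i)) → ℝ := fun j c => W * dcount P D (xx j) (nn j) c / nn j
  have hvd : ∀ j c, v j c = (W:ℝ) * (dcount P D (xx j) (nn j) c : ℝ) / (nn j : ℝ) :=
    fun _ _ => rfl
  have hv0 : ∀ j c, 0 ≤ v j c := fun j c => by positivity
  have hdc : ∀ j c, (dcount P D (xx j) (nn j) c : ℝ) ≤ nn j / W + 1 := fun j c => by
    have h1 := (card_win_bounds P hP0 hP (xx j) (nn j) c).2
    have h2 : dcount P D (xx j) (nn j) c ≤ (win P (xx j) (nn j) c).card :=
      Finset.card_filter_le _ _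
    calc (dcount P D (xx j) (nn j) c : ℝ) ≤ (win P (xx j) (nn j) c).card := by exact_mod_cast h2
      _ ≤ _ := h1
  have hv1 : ∀ j c, v j c ≤ 1 + W / nn j := fun j c => by
    have := hdc j c
    have hp := hnpos j
    rw [hvd, div_le_iff₀ hp]
    calc (W:ℝ) * dcount P D (xx j) (nn j) c ≤ W * (nn j / W + 1) := by gcongr
      _ = (1 + W / nn j) * nn j := by field_simp
  have hv2 : ∀ j c, v j c ≤ 1 + W := fun j c => by
    refine (hv1 j c).trans ?_
    have h1 : (1:ℝ) ≤ nn j := by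
      have := hnn j
      exact_mod_cast (by omega : 1 ≤ nn j)
    have : (W:ℝ) / nn j ≤ W := div_le_self hWr.le h1
    linarith
  have hcomp : IsCompact (Set.pi Set.univ (fun _ : (∀ i, ZMod (P i)) => Set.Icc (0:ℝ) (1 + W))) :=
    isCompact_univ_pi fun _ => isCompact_Icc
  obtain ⟨g, hg, φ, hφ, hlim⟩ := hcomp.tendsto_subseq (x := v)
    (fun j => by
      intro c _
      exact ⟨hv0 j c, hv2 j c⟩)
  have hlimc : ∀ c, Tendsto (fun j => v (φ j) c) atTop (𝓝 (g c)) := fun c => by
    have := (tendsto_pi_nhds.1 hlim) c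
    exact this
  have hninf : Tendsto (fun j => (nn (φ j) : ℝ)) atTop atTop := by
    refine tendsto_atTop_mono (f := fun j : ℕ => (j : ℝ)) (fun j => ?_) tendsto_natCast_atTop_atTop
    have h1 := hnn (φ j)
    have h2 : j ≤ φ j := hφ.id_le j
    exact_mod_cast (by omega : j ≤ nn (φ j))
  have hinv : ∀ C : ℝ, Tendsto (fun j => C / (nn (φ j) : ℝ)) atTop (𝓝 0) := fun C =>
    Tendsto.div_atTop tendsto_const_nhds hninf
  refine ⟨g, fun c => (hg c trivial).1, fun c => ?_, ?_, ?_⟩
  · have h1 : Tendsto (fun j => 1 + (W:ℝ) / nn (φ j)) atTop (𝓝 (1 + 0)) :=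
      Tendsto.add tendsto_const_nhds (hinv W)
    have := le_of_tendsto_of_tendsto (hlimc c) h1 (Eventually.of_forall fun j => hv1 (φ j) c)
    simpa using this
  · have h1 : Tendsto (fun j => ∑ c, v (φ j) c) atTop (𝓝 (∑ c, g c)) :=
      tendsto_finsetSum _ fun c _ => hlimc c
    refine le_of_tendsto h1 (Eventually.of_forall fun j => ?_)
    have hp := hnpos (φ j)
    have h2 : ∑ c, v (φ j) c = W * wcount D (xx (φ j)) (nn (φ j)) / nn (φ j) := by
      rw [← sum_dcount P D]
      push_cast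
      rw [Finset.mul_sum, Finset.sum_div]
    rw [h2, div_le_iff₀ hp]
    have h3 := hx (φ j + 1)
    calc (W:ℝ) * wcount D (xx (φ j)) (nn (φ j)) ≤ W * (ρ * nn (φ j)) := by gcongr
      _ = ρ * W * nn (φ j) := by ring
  · intro κ _ f a N ε hε
    by_contra hcon
    push Not at hcon
    set B : ℕ := N + ∑ k, f k + 1 with hBdef
    have hfB : ∀ k, f k < B := fun k => by
      have := Finset.single_le_sum (f := f) (fun _ _ => Nat.zero_le _) (Finset.mem_univ k)
      omega
    set t : ℝ := ∑ k, g (a - ((f k : ℕ) : ∀ i, ZMod (P i))) + ε with ht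
    have ht0 : 0 ≤ t := by
      have : 0 ≤ ∑ k, g (a - ((f k : ℕ) : ∀ i, ZMod (P i))) :=
        Finset.sum_nonneg fun k _ => (hg _ trivial).1
      positivity
    have hineq : ∀ j, ((nn (φ j) : ℝ) / W - 1 - B) * t ≤
        ∑ k, ((f k : ℝ) + dcount P D (xx (φ j)) (nn (φ j)) (a - ((f k : ℕ) : ∀ i, ZMod (P i)))) := by
      intro j
      have h1 := sum_hits_le P D (xx (φ j)) (nn (φ j)) B a κ f hfB t (by
        intro y hy
        simp only [Finset.mem_filter, mem_win] at hy
        have := hcon y (by omega) hy.1.2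
        refine le_of_lt ?_
        convert this)
      refine le_trans ?_ h1
      refine mul_le_mul_of_nonneg_right ?_ ht0
      have h2 := (card_win_bounds P hP0 hP (xx (φ j)) (nn (φ j)) a).1
      have h3 : (win P (xx (φ j)) (nn (φ j)) a).card ≤
          ((win P (xx (φ j)) (nn (φ j)) a).filter (fun y => B ≤ y)).card + B := by
        have h4 : win P (xx (φ j)) (nn (φ j)) a ⊆
            (win P (xx (φ j)) (nn (φ j)) a).filter (fun y => B ≤ y) ∪ Finset.range B := by
          intro y hy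
          simp only [Finset.mem_union, Finset.mem_filter, Finset.mem_range]
          by_cases h : B ≤ y
          · exact Or.inl ⟨hy, h⟩
          · exact Or.inr (by omega)
        calc _ ≤ _ := Finset.card_le_card h4
          _ ≤ _ := Finset.card_union_le _ _
          _ = _ := by rw [Finset.card_range]
      have h3' : ((win P (xx (φ j)) (nn (φ j)) a).card : ℝ) ≤
          ((win P (xx (φ j)) (nn (φ j)) a).filter (fun y => B ≤ y)).card + B := by
        exact_mod_cast h3
      linarith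
    -- divide by nn / W
    have hineq2 : ∀ j, (1 - (1 + B) * W / nn (φ j)) * t ≤
        W * (∑ k, (f k : ℝ)) / nn (φ j) +
          ∑ k, v (φ j) (a - ((f k : ℕ) : ∀ i, ZMod (P i))) := by
      intro j
      have hp := hnpos (φ j)
      have h := hineq j
      have h5 : (1 - (1 + B) * W / nn (φ j)) * t =
          (((nn (φ j) : ℝ) / W - 1 - B) * t) * (W / nn (φ j)) := by
        field_simp
        ring
      have h6 : W * (∑ k, (f k : ℝ)) / nn (φ j) +
          ∑ k, v (φ j) (a - ((f k : ℕ) : ∀ i, ZMod (P i))) =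
          (∑ k, ((f k : ℝ) + dcount P D (xx (φ j)) (nn (φ j)) (a - ((f k : ℕ) : ∀ i, ZMod (P i))))) *
            (W / nn (φ j)) := by
        rw [Finset.sum_add_distrib, add_mul, Finset.sum_mul _ _ (W / (nn (φ j) : ℝ))]
        rw [Finset.sum_mul _ (fun k => (dcount P D (xx (φ j)) (nn (φ j))
          (a - ((f k : ℕ) : ∀ i, ZMod (P i))) : ℝ))]
        congr 1
        · rw [← Finset.sum_mul]; ring
        · refine Finset.sum_congr rfl fun k _ => ?_
          rw [hvd]
          ring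
      rw [h5, h6]
      exact mul_le_mul_of_nonneg_right h (by positivity)
    have hL : Tendsto (fun j => (1 - (1 + B) * W / nn (φ j)) * t) atTop (𝓝 ((1 - 0) * t)) :=
      (tendsto_const_nhds.sub (hinv _)).mul tendsto_const_nhds
    have hR : Tendsto (fun j => W * (∑ k, (f k : ℝ)) / nn (φ j) +
          ∑ k, v (φ j) (a - ((f k : ℕ) : ∀ i, ZMod (P i)))) atTop
        (𝓝 (0 + ∑ k, g (a - ((f k : ℕ) : ∀ i, ZMod (P i))))) :=
      (hinv _).add (tendsto_finsetSum _ fun k _ => hlimc _)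
    have := le_of_tendsto_of_tendsto hL hR (Eventually.of_forall hineq2)
    rw [ht] at this
    linarith

end Count

end Pool.Agent.Lib_helper23.PG
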